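import Mathlib
import Pool.Agent.J4.H47.KM.Final

set_option autoImplicit false

/-!
# The orientable genus of `K_n - K_2` for `n ≡ 2 (mod 24)`

We show `γ(K_n - K_2) = ⌈((n - 3)(n - 4) - 2) / 12⌉` for all `n ≥ 3` with `n ≡ 2 (mod 24)`, the case
which Jungerman's and Ringel's work on `K_n - K_2` leaves undecided.

The genus is defined by rotation systems (Heffter, Edmonds, Youngs): the cellular embeddings of a
connected graph in closed oriented surfaces are the rotation systems, and the least genus of an orientable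
surface in which a connected graph can be drawn is attained by a cellular embedding.

Construction. Let `n = 24 s + 2`, `N = 12 s`. The vertices are `(i, a)`, `i = 0, 1`, `a ∈ ℤ/N`, and two
further vertices, which are not adjacent to each other. We give a triangulation which is invariant
under the translations of `ℤ/N`; the rotations at `(0, 0)` and `(1, 0)` come from a current graph of
index two:

* a permutation `φ` of `ℤ/N`, which gives the order of the cross differences, with two cycles `C`, `C'`
  (two zigzag cycles; for even `s` one of them is a transposition), such that each difference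
  `φ(d) - d` not in `{0, 6 s, μ, -μ}` occurs once, and `μ`, `-μ` occur once in `C` and once in `C'`
  (`μ = 2 s` for odd `s` and `μ = 1` for even `s`). The class `1` uses `φ⁻¹`;
* for the differences inside a class: triples with sum zero, one from each difference of
  Davies's Langford sequences, which are vertices of degree three (Kirchhoff's law), and a special vertex
  `{1, 6 s - 1, 6 s}` of degree three, as `6 s = -6 s`;
* the vertices of degree three are attached to one face one after the other: one of
  the two rotations at such a vertex does not split the face.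
-/

namespace Pool.Agent.Results.MP_a803c6_co.OrientableGenus

open Equiv

/-- The reversal of the darts (the edges with a direction) of a graph. -/
def rev {V : Type} (G : SimpleGraph V) : Perm G.Dart :=
  Function.Involutive.toPerm SimpleGraph.Dart.symm SimpleGraph.Dart.symm_involutive

/-- A rotation system of `G`: a permutation of the darts whose cycles are the sets of all darts
which start at a given vertex. -/
def IsRotationSystem {V : Type} (G : SimpleGraph V) (σ : Perm G.Dart) : Prop :=
  (∀ d : G.Dart, (σ d).fst = d.fst) ∧ ∀ d d' : G.Dart, d.fst = d'.fst → σ.SameCycle d d'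

/-- The number of faces of a rotation system: the number of cycles of the permutation which maps a dart
`d` to the dart after the reversal of `d`. -/
noncomputable def faces {V : Type} (G : SimpleGraph V) (σ : Perm G.Dart) : ℕ :=
  Nat.card (Quotient (Perm.SameCycle.setoid (σ * rev G)))

/-- The genus of a finite connected graph: the least `g` such that `|V| - |E| + |F| = 2 - 2 g` for some
rotation system. -/
noncomputable def genus {V : Type} (G : SimpleGraph V) : ℕ :=
  sInf {g : ℕ | ∃ σ : Perm G.Dart, IsRotationSystem G σ ∧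
    (Nat.card V : ℤ) - Nat.card G.edgeSet + faces G σ = 2 - 2 * (g : ℤ)}

theorem card_edges {n : ℕ} (a b : Fin n) (hab : a ≠ b) :
    Nat.card ((⊤ : SimpleGraph (Fin n)).deleteEdges {s(a, b)}).edgeSet = n.choose 2 - 1 := by
  classical
  rw [Nat.card_eq_fintype_card, ← SimpleGraph.edgeFinset_card]
  have h1 : ((⊤ : SimpleGraph (Fin n)).deleteEdges {s(a, b)}).edgeFinset =
      (⊤ : SimpleGraph (Fin n)).edgeFinset \ {s(a, b)} := by
    ext e
    simp [SimpleGraph.edgeSet_deleteEdges]
  rw [h1, Finset.card_sdiff_of_subset, SimpleGraph.card_edgeFinset_top_eq_card_choose_two,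
    Fintype.card_fin, Finset.card_singleton]
  intro e he
  rw [Finset.mem_singleton] at he
  rw [he]
  simpa using hab

theorem card_darts {n : ℕ} (G : SimpleGraph (Fin n)) :
    Nat.card G.Dart = 2 * Nat.card G.edgeSet := by
  classical
  rw [Nat.card_eq_fintype_card, Nat.card_eq_fintype_card, ← SimpleGraph.edgeFinset_card]
  exact G.dart_card_eq_twice_card_edges

theorem adj_iff {n : ℕ} (a b v u : Fin n) :
    ((⊤ : SimpleGraph (Fin n)).deleteEdges {s(a, b)}).Adj v u ↔
      v ≠ u ∧ ¬ ((v = a ∨ v = b) ∧ (u = a ∨ u = b)) := by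
  rw [SimpleGraph.deleteEdges_adj, SimpleGraph.top_adj, Set.mem_singleton_iff, Sym2.eq_iff]
  constructor
  · rintro ⟨h1, h2⟩
    refine ⟨h1, ?_⟩
    rintro ⟨rfl | rfl, rfl | rfl⟩
    · exact h1 rfl
    · exact h2 (Or.inl ⟨rfl, rfl⟩)
    · exact h2 (Or.inr ⟨rfl, rfl⟩)
    · exact h1 rfl
  · rintro ⟨h1, h2⟩
    refine ⟨h1, ?_⟩
    rintro (⟨rfl, rfl⟩ | ⟨rfl, rfl⟩)
    · exact h2 ⟨Or.inl rfl, Or.inr rfl⟩
    · exact h2 ⟨Or.inr rfl, Or.inl rfl⟩

/-- a vertex different from three given ones -/
theorem other {n : ℕ} (hn : 4 ≤ n) (a b v : Fin n) : ∃ w, w ≠ a ∧ w ≠ b ∧ w ≠ v := by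
  classical
  have : ∃ w, w ∉ ({a, b, v} : Finset (Fin n)) := by
    by_contra h
    push Not at h
    have h1 : (Finset.univ : Finset (Fin n)) ⊆ {a, b, v} := fun x _ => h x
    have h2 := Finset.card_le_card h1
    have h3 := Finset.card_le_three (a := a) (b := b) (c := v)
    rw [Finset.card_univ, Fintype.card_fin] at h2
    omega
  obtain ⟨w, hw⟩ := this
  simp only [Finset.mem_insert, Finset.mem_singleton, not_or] at hw
  exact ⟨w, hw⟩

theorem connected {n : ℕ} (hn : 4 ≤ n) (a b : Fin n) :
    ((⊤ : SimpleGraph (Fin n)).deleteEdges {s(a, b)}).Connected := by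
  have : Nonempty (Fin n) := ⟨⟨0, by omega⟩⟩
  refine ⟨fun v u => ?_⟩
  obtain ⟨w, h1, h2, h3⟩ := other hn a b v
  by_cases hu : w = u
  · apply SimpleGraph.Adj.reachable
    rw [adj_iff]
    subst hu
    exact ⟨h3.symm, fun h => by tauto⟩
  · have e1 : ((⊤ : SimpleGraph (Fin n)).deleteEdges {s(a, b)}).Adj v w := by
      rw [adj_iff]
      exact ⟨h3.symm, fun h => by tauto⟩
    have e2 : ((⊤ : SimpleGraph (Fin n)).deleteEdges {s(a, b)}).Adj w u := by
      rw [adj_iff]
      exact ⟨hu, fun h => by tauto⟩
    exact e1.reachable.trans e2.reachable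

/-- naming the vertices -/
theorem exists_equiv {W : Type} [Fintype W] {n : ℕ} (h : Fintype.card W = n) {x y : W} (hxy : x ≠ y)
    {a b : Fin n} (hab : a ≠ b) : ∃ e : W ≃ Fin n, e x = a ∧ e y = b := by
  classical
  let e0 : W ≃ Fin n := Fintype.equivFinOfCardEq h
  let e1 : W ≃ Fin n := e0.trans (swap (e0 x) a)
  have h1 : e1 x = a := by simp [e1]
  refine ⟨e1.trans (swap (e1 y) b), ?_, ?_⟩
  · rw [Equiv.trans_apply, h1]
    apply swap_apply_of_ne_of_ne _ hab
    rw [← h1]
    exact fun h => hxy (e1.injective h)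
  · simp

theorem numbers {s : ℕ} : (24 * s + 2).choose 2 - 1 = 36 * s * (8 * s + 1) := by
  rw [Nat.choose_two_right]
  have h1 : (24 * s + 2) * (24 * s + 2 - 1) = 2 * (36 * s * (8 * s + 1) + 1) := by
    rw [show 24 * s + 2 - 1 = 24 * s + 1 by omega]
    ring
  rw [h1, Nat.mul_div_cancel_left _ (by norm_num)]
  omega

/-- **The orientable genus of `K_n - K_2` for `n ≡ 2 (mod 24)`.** For every `n ≥ 3` with
`n ≡ 2 (mod 24)` the graph `K_n - K_2` (the complete graph on `n` vertices without the edge `a b`; it
is connected) has genus `⌈((n - 3)(n - 4) - 2) / 12⌉`. -/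
theorem result (n : ℕ) (hn : 3 ≤ n) (h24 : n % 24 = 2) (a b : Fin n) (hab : a ≠ b) :
    ((⊤ : SimpleGraph (Fin n)).deleteEdges {s(a, b)}).Connected ∧
      (genus ((⊤ : SimpleGraph (Fin n)).deleteEdges {s(a, b)}) : ℤ) =
        ⌈(((n : ℝ) - 3) * ((n : ℝ) - 4) - 2) / 12⌉ := by
  classical
  refine ⟨connected (by omega) a b, ?_⟩
  obtain ⟨s, rfl⟩ : ∃ s, n = 24 * s + 2 := ⟨n / 24, by omega⟩
  have hs : 1 ≤ s := by omega
  set G := (⊤ : SimpleGraph (Fin (24 * s + 2))).deleteEdges {s(a, b)} with hG
  -- the right hand side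
  have hr : ⌈((((24 * s + 2 : ℕ) : ℝ) - 3) * (((24 * s + 2 : ℕ) : ℝ) - 4) - 2) / 12⌉ =
      6 * (s : ℤ) * (8 * s - 1) := by
    rw [show ((((24 * s + 2 : ℕ) : ℝ) - 3) * (((24 * s + 2 : ℕ) : ℝ) - 4) - 2) / 12 =
      ((6 * (s : ℤ) * (8 * s - 1) : ℤ) : ℝ) by push_cast; ring]
    exact Int.ceil_intCast _
  rw [hr]
  have hE : Nat.card G.edgeSet = 36 * s * (8 * s + 1) := by
    rw [hG, card_edges a b hab, numbers]
  have hD : Nat.card G.Dart = 72 * s * (8 * s + 1) := by
    rw [card_darts, hE]
    ring
  -- the triangulation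
  obtain ⟨R, hR⟩ := J4.H47.KM.exists_tri hs
  have : NeZero (12 * s) := ⟨by omega⟩
  have hW : Fintype.card (J4.H47.KM.Vx (12 * s)) = 24 * s + 2 := by
    rw [Fintype.card_sum, Fintype.card_prod, Fintype.card_bool, ZMod.card]
    ring
  obtain ⟨e, he1, he2⟩ := exists_equiv hW (x := Sum.inr false) (y := Sum.inr true) (by simp) hab
  have hright : ∀ v : Fin (24 * s + 2), (e.symm v).isRight = true ↔ (v = a ∨ v = b) := by
    intro v
    have h1 : e.symm a = Sum.inr false := by rw [← he1, Equiv.symm_apply_apply]
    have h2 : e.symm b = Sum.inr true := by rw [← he2, Equiv.symm_apply_apply]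
    constructor
    · intro h
      rcases hv : e.symm v with z | (_ | _)
      · rw [hv] at h
        simp at h
      · left
        rw [← he1, ← hv, Equiv.apply_symm_apply]
      · right
        rw [← he2, ← hv, Equiv.apply_symm_apply]
    · rintro (rfl | rfl)
      · rw [h1]
        rfl
      · rw [h2]
        rfl
  have hadj : ∀ v u, G.Adj v u ↔ (J4.H47.KM.gr (12 * s)).Adj (e.symm v) (e.symm u) := by
    intro v u
    rw [hG, adj_iff]
    show _ ↔ e.symm v ≠ e.symm u ∧ ¬ ((e.symm v).isRight = true ∧ (e.symm u).isRight = true)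
    rw [hright, hright, e.symm.injective.ne_iff]
  have hT := hR.map e hadj
  obtain ⟨σ, h1, h2⟩ := J4.H47.KM.upper hT
  have hdeg : ∀ v u, G.Adj v u → ∃ w, w ≠ u ∧ G.Adj v w := by
    intro v u hvu
    have hc : 5 ≤ 24 * s + 2 := by omega
    have : ∃ w, w ∉ ({a, b, v, u} : Finset (Fin (24 * s + 2))) := by
      by_contra h
      push Not at h
      have h1 : (Finset.univ : Finset (Fin (24 * s + 2))) ⊆ {a, b, v, u} := fun x _ => h x
      have h2 := Finset.card_le_card h1
      have h3 := Finset.card_le_four (a := a) (b := b) (c := v) (d := u)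
      rw [Finset.card_univ, Fintype.card_fin] at h2
      omega
    obtain ⟨w, hw⟩ := this
    simp only [Finset.mem_insert, Finset.mem_singleton, not_or] at hw
    refine ⟨w, hw.2.2.2, ?_⟩
    rw [hG, adj_iff]
    exact ⟨fun h => hw.2.2.1 h.symm, fun h => by tauto⟩
  have hlow := J4.H47.KM.lower hdeg
  have hfac : ∀ τ : Perm G.Dart, faces G τ =
      Nat.card (Quotient (Perm.SameCycle.setoid (τ * J4.H47.KM.revP G))) := fun τ => rfl
  have hV : Nat.card (Fin (24 * s + 2)) = 24 * s + 2 := by simp
  have hF : 3 * faces G σ = 72 * s * (8 * s + 1) := by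
    have h3 := hlow σ h1
    rw [hfac]
    rw [hD] at h2 h3
    exact le_antisymm h3 h2
  -- the value
  have hval : ((6 * s * (8 * s - 1) : ℕ) : ℤ) = 6 * (s : ℤ) * (8 * s - 1) := by
    push_cast [Nat.cast_sub (show 1 ≤ 8 * s by omega)]
    ring
  rw [← hval]
  congr 1
  apply le_antisymm
  · apply Nat.sInf_le
    refine ⟨σ, h1, ?_⟩
    rw [hV, hE, hval]
    have hF' : (faces G σ : ℤ) = 24 * s * (8 * s + 1) := by
      have : (3 : ℤ) * faces G σ = 72 * s * (8 * s + 1) := by exact_mod_cast hF
      linarith
    rw [hF']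
    push_cast
    ring
  · apply le_csInf
    · refine ⟨6 * s * (8 * s - 1), σ, h1, ?_⟩
      rw [hV, hE, hval]
      have hF' : (faces G σ : ℤ) = 24 * s * (8 * s + 1) := by
        have : (3 : ℤ) * faces G σ = 72 * s * (8 * s + 1) := by exact_mod_cast hF
        linarith
      rw [hF']
      push_cast
      ring
    · rintro g ⟨τ, h3, h4⟩
      have h5 := hlow τ h3
      rw [← hfac, hD] at h5
      have h6 : (3 : ℤ) * faces G τ ≤ 72 * s * (8 * s + 1) := by exact_mod_cast h5
      rw [hV, hE] at h4
      have h7 : ((6 * s * (8 * s - 1) : ℕ) : ℤ) ≤ (g : ℤ) := by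
        rw [hval]
        push_cast at h4
        nlinarith [h4, h6]
      exact_mod_cast h7

end Pool.Agent.Results.MP_a803c6_co.OrientableGenus
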